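import Pool.Agent.W151.TreeFinal

set_option autoImplicit false
set_option linter.unusedSectionVars false

/-! # Trees with a vertex of large degree are rare -/

namespace Pool.Agent.TH272.WH

open Finset Pool.Agent.W151.TreeRec Pool.Agent.W151.TreeIneq

attribute [local instance] Classical.propDecidable

variable {V : Type} [Fintype V]

/-- a graph as a subgraph of the complete graph -/
def sub (T : SimpleGraph V) : (⊤ : SimpleGraph V).Subgraph := SimpleGraph.toSubgraph T le_top

lemma sub_verts (T : SimpleGraph V) : (sub T).verts = Set.univ := rfl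

lemma sub_adj (T : SimpleGraph V) (a b : V) : (sub T).Adj a b ↔ T.Adj a b := Iff.rfl

lemma sub_inj : Function.Injective (sub (V := V)) := by
  intro T T' h
  ext a b
  rw [← sub_adj, h, sub_adj]

lemma spanning_sub (T : SimpleGraph V) : (sub T).spanningCoe = T := by
  ext a b
  rfl

lemma sub_isTree (T : SimpleGraph V) : (sub T).coe.IsTree ↔ T.IsTree := by
  have h1 : (sub T).IsSpanning := fun _ => trivial
  have e := (sub T).spanningCoeEquivCoeOfSpanning h1
  rw [spanning_sub] at e
  exact e.isTree_iff.symm

/-- the number of trees on `V` -/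
theorem card_trees : {T : SimpleGraph V | T.IsTree}.ncard = tau (⊤ : SimpleGraph V) univ := by
  unfold tau
  have h : {H : (⊤ : SimpleGraph V).Subgraph | H.coe.IsTree ∧ H.verts = ((univ : Finset V) : Set V)} =
      sub '' {T : SimpleGraph V | T.IsTree} := by
    ext H
    constructor
    · rintro ⟨h1, h2⟩
      have h3 : sub H.spanningCoe = H := by
        ext a b
        · rw [h2, sub_verts]
          simp
        · rfl
      refine ⟨H.spanningCoe, ?_, h3⟩
      rw [← h3] at h1
      exact (sub_isTree _).1 h1
    · rintro ⟨T, h1, rfl⟩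
      exact ⟨(sub_isTree T).2 h1, by rw [sub_verts]; simp⟩
  rw [h, Set.ncard_image_of_injective _ sub_inj]

/-- functions with a large fibre -/
theorem fibre_count (r : V) (d : ℕ) :
    ((univ : Finset (V → V)).filter (fun π => π r = r ∧
      ∃ v, d ≤ (univ.filter (fun a => a ≠ r ∧ π a = v)).card)).card ≤
    Fintype.card V * ((Fintype.card V - 1).choose d * Fintype.card V ^ (Fintype.card V - 1 - d)) := by
  set F : V → Finset V → Finset (V → V) := fun v D =>
    Fintype.piFinset (fun a => if a = r then {r} else if a ∈ D then {v} else univ) with hF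
  have hsub : (univ : Finset (V → V)).filter (fun π => π r = r ∧
      ∃ v, d ≤ (univ.filter (fun a => a ≠ r ∧ π a = v)).card) ⊆
      univ.biUnion (fun v => (powersetCard d (univ.erase r)).biUnion (F v)) := by
    intro π hπ
    simp only [mem_filter, mem_univ, true_and] at hπ
    obtain ⟨h1, v, h2⟩ := hπ
    obtain ⟨D, h3, h4⟩ := exists_subset_card_eq h2
    simp only [mem_biUnion, mem_univ, true_and]
    refine ⟨v, D, ?_, ?_⟩
    · rw [mem_powersetCard]
      refine ⟨fun a ha => ?_, h4⟩
      have := h3 ha
      simp only [mem_filter, mem_univ, true_and] at this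
      exact mem_erase.2 ⟨this.1, mem_univ _⟩
    · simp only [hF, Fintype.mem_piFinset]
      intro a
      by_cases ha : a = r
      · subst ha
        simp [h1]
      · rw [if_neg ha]
        by_cases hD : a ∈ D
        · rw [if_pos hD]
          have := h3 hD
          simp only [mem_filter, mem_univ, true_and] at this
          simp [this.2]
        · rw [if_neg hD]
          exact mem_univ _
  have hcard : ∀ v, ∀ D ∈ powersetCard d (univ.erase r), (F v D).card =
      Fintype.card V ^ (Fintype.card V - 1 - d) := by
    intro v D hD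
    rw [mem_powersetCard] at hD
    have hrD : r ∉ D := fun h => by
      have := hD.1 h
      simp at this
    simp only [hF, Fintype.card_piFinset]
    have h1 : ∀ a : V, (if a = r then ({r} : Finset V) else if a ∈ D then {v} else univ).card =
        if a ∈ (univ \ insert r D : Finset V) then Fintype.card V else 1 := by
      intro a
      by_cases ha : a = r
      · simp [ha]
      · by_cases hD : a ∈ D
        · simp [ha, hD]
        · simp [ha, hD]
    rw [prod_congr rfl (fun a _ => h1 a), prod_ite_mem, univ_inter, prod_const,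
      card_sdiff_of_subset (subset_univ _), card_insert_of_notMem hrD, hD.2, card_univ]
    congr 1
    omega
  calc _ ≤ (univ.biUnion (fun v => (powersetCard d (univ.erase r)).biUnion (F v))).card :=
        card_le_card hsub
    _ ≤ ∑ v : V, ((powersetCard d (univ.erase r)).biUnion (F v)).card := card_biUnion_le
    _ ≤ ∑ v : V, ∑ D ∈ powersetCard d (univ.erase r), (F v D).card :=
        sum_le_sum (fun v _ => card_biUnion_le)
    _ = ∑ v : V, ((Fintype.card V - 1).choose d * Fintype.card V ^ (Fintype.card V - 1 - d)) := by
        refine sum_congr rfl (fun v _ => ?_)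
        rw [sum_congr rfl (hcard v), sum_const, card_powersetCard, card_erase_of_mem (mem_univ _),
          card_univ, smul_eq_mul]
    _ = _ := by rw [sum_const, card_univ, smul_eq_mul]

theorem fibre_count' (r : V) (d : ℕ) :
    ((univ : Finset (V → V)).filter (fun π => π r = r ∧
      ∃ v, d ≤ (univ.filter (fun a => a ≠ r ∧ π a = v)).card)).card * d.factorial ≤
    Fintype.card V ^ Fintype.card V := by
  refine (Nat.mul_le_mul_right _ (fibre_count r d)).trans ?_
  set n := Fintype.card V with hn
  have hn1 : 1 ≤ n := Fintype.card_pos_iff.2 ⟨r⟩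
  by_cases hd : d ≤ n - 1
  · have h1 : (n - 1).choose d * d.factorial ≤ n ^ d := by
      rw [mul_comm, ← Nat.descFactorial_eq_factorial_mul_choose]
      exact (Nat.descFactorial_le_pow _ _).trans (Nat.pow_le_pow_left (by omega) _)
    calc n * ((n - 1).choose d * n ^ (n - 1 - d)) * d.factorial
        = n * n ^ (n - 1 - d) * ((n - 1).choose d * d.factorial) := by ring
      _ ≤ n * n ^ (n - 1 - d) * n ^ d := Nat.mul_le_mul_left _ h1
      _ = n ^ (1 + (n - 1 - d) + d) := by rw [pow_add, pow_add, pow_one]
      _ = n ^ n := by congr 1; omega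
  · rw [Nat.choose_eq_zero_of_lt (by omega)]
    simp

/-- the number of trees with a vertex of degree more than `d` -/
theorem big_trees (d : ℕ) (r : V) :
    {T : SimpleGraph V | T.IsTree ∧ ∃ v, d < (T.neighborSet v).ncard}.ncard * d.factorial ≤
      Fintype.card V ^ Fintype.card V := by
  refine le_trans (Nat.mul_le_mul_right _ ?_) (fibre_count' r d)
  have key : ∀ T : SimpleGraph V, T.IsTree → ∃ π : V → V,
      IsPar (⊤ : SimpleGraph V) univ r π ∧ Phi (⊤ : SimpleGraph V) univ π = sub T := by
    intro T hT
    exact Phi_surj (mem_univ r) (sub T) ((sub_isTree T).2 hT) (by rw [sub_verts]; simp)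
  haveI : Nonempty V := ⟨r⟩
  choose! f hf1 hf2 using key
  rw [← Set.ncard_coe_finset]
  refine Set.ncard_le_ncard_of_injOn f ?_ ?_ (finite_toSet _)
  · rintro T ⟨hT, v, hv⟩
    simp only [coe_filter, mem_univ, true_and, Set.mem_setOf_eq]
    refine ⟨(hf1 T hT).root, v, ?_⟩
    have h1 : T.neighborSet v ⊆ ((insert (f T v) (univ.filter (fun a => a ≠ r ∧ f T a = v)) :
        Finset V) : Set V) := by
      intro b hb
      rw [SimpleGraph.mem_neighborSet, ← sub_adj, ← hf2 T hT] at hb
      obtain ⟨-, -, h3, h4⟩ := hb
      rw [SimpleGraph.top_adj] at h3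
      simp only [coe_insert, coe_filter, mem_univ, true_and, Set.mem_insert_iff, Set.mem_setOf_eq]
      rcases h4 with h4 | h4
      · left; exact h4.symm
      · right
        refine ⟨?_, h4⟩
        rintro rfl
        exact h3 (by rw [← h4, (hf1 T hT).root])
    have h2 := Set.ncard_le_ncard h1 (finite_toSet _)
    rw [Set.ncard_coe_finset] at h2
    have h3 := card_insert_le (f T v) (univ.filter (fun a => a ≠ r ∧ f T a = v))
    omega
  · rintro T ⟨hT, -⟩ T' ⟨hT', -⟩ h
    apply sub_inj
    rw [← hf2 T hT, ← hf2 T' hT', h]

end Pool.Agent.TH272.WH
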