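import Pool.Agent.H891R2.RL.Prob
import Pool.Agent.TH272.WH.Trees

set_option autoImplicit false

/-! # Labelled trees and their orientations -/

namespace Pool.Agent.TH272.WH

open Finset Pool.Agent.H891R2.RL

/-- A labelled tree with the vertices `0, …, n-1`: a tree with a label `lab e` of every edge `e`; the
label is a vertex and not an end point of the edge. -/
structure LabelledTree (n : ℕ) where
  tree : SimpleGraph (Fin n)
  isTree : tree.IsTree
  lab : tree.edgeSet → Fin n
  lab_notMem : ∀ e, lab e ∉ e.1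

/-- An orientation of the edges of a labelled tree: the edge `e` runs from `ini e` to `ter e`. -/
structure Orientation {n : ℕ} (x : LabelledTree n) where
  ini : x.tree.edgeSet → Fin n
  ter : x.tree.edgeSet → Fin n
  ends : ∀ e, s(ini e, ter e) = e.1

/-- The labelled oriented tree. -/
def Orientation.log {n : ℕ} {x : LabelledTree n} (o : Orientation x) :
    LOG (Fin n) x.tree.edgeSet := ⟨o.ini, o.ter, x.lab⟩

variable {n : ℕ}

/-- the decomposition -/
def decomp (P : LabelledTree n → Prop) :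
    {x : LabelledTree n // P x} ≃ Σ T : {T : SimpleGraph (Fin n) // T.IsTree},
      {lab : T.1.edgeSet → Fin n // ∃ h : ∀ e, lab e ∉ e.1, P ⟨T.1, T.2, lab, h⟩} where
  toFun x := ⟨⟨x.1.tree, x.1.isTree⟩, ⟨x.1.lab, x.1.lab_notMem, x.2⟩⟩
  invFun y := ⟨⟨y.1.1, y.1.2, y.2.1, y.2.2.1⟩, y.2.2.2⟩
  left_inv _ := rfl
  right_inv _ := rfl

/-- the number of labelled trees with a property -/
theorem card_LT (P : LabelledTree n → Prop) [Fintype {T : SimpleGraph (Fin n) // T.IsTree}] :
    Nat.card {x : LabelledTree n // P x} = ∑ T : {T : SimpleGraph (Fin n) // T.IsTree},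
      {lab : T.1.edgeSet → Fin n | ∃ h : ∀ e, lab e ∉ e.1, P ⟨T.1, T.2, lab, h⟩}.ncard := by
  rw [Nat.card_congr (decomp P), Nat.card_sigma]
  refine sum_congr rfl (fun T _ => ?_)
  rw [← Nat.card_coe_set_eq]
  rfl

theorem card_edges (T : SimpleGraph (Fin n)) (hT : T.IsTree) [Fintype T.edgeSet] :
    Fintype.card T.edgeSet + 1 = n := by
  classical
  have h4 := hT.card_edgeFinset
  rw [Fintype.card_fin] at h4
  refine Eq.trans ?_ h4
  rw [← SimpleGraph.edgeFinset_card]

/-- the number of labellings -/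
theorem card_lab (T : SimpleGraph (Fin n)) (hT : T.IsTree) :
    {lab : T.edgeSet → Fin n | ∀ e, lab e ∉ e.1}.ncard = (n - 2) ^ (n - 1) := by
  classical
  have h1 : {lab : T.edgeSet → Fin n | ∀ e, lab e ∉ e.1} =
      ((Fintype.piFinset (fun e : T.edgeSet => univ.filter (fun v => v ∉ e.1)) :
        Finset (T.edgeSet → Fin n)) : Set (T.edgeSet → Fin n)) := by
    ext lab
    simp only [Set.mem_setOf_eq, Finset.mem_coe, Fintype.mem_piFinset,
      Finset.mem_filter, Finset.mem_univ, true_and]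
  rw [h1, Set.ncard_coe_finset, Fintype.card_piFinset]
  have h2 : ∀ e : T.edgeSet, (univ.filter (fun v => v ∉ e.1) : Finset (Fin n)).card = n - 2 := by
    rintro ⟨e, he⟩
    induction e using Sym2.ind with
    | _ a b =>
    have hab : a ≠ b := by
      rintro rfl
      exact T.loopless.irrefl _ ((SimpleGraph.mem_edgeSet T).1 he)
    have h3 : (univ.filter (fun v => v ∉ s(a, b)) : Finset (Fin n)) = univ \ {a, b} := by
      ext v
      simp
    simp only [h3]
    rw [Finset.card_sdiff_of_subset (Finset.subset_univ _), Finset.card_univ, Fintype.card_fin,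
      Finset.card_pair hab]
  rw [Finset.prod_congr rfl (fun e _ => h2 e), Finset.prod_const, Finset.card_univ]
  congr 1
  have := card_edges T hT
  omega

/-- the number of labellings which are not sparse, for one orientation -/
theorem nonsparse (Δ : ℕ) (hn : 3 ≤ n) (T : SimpleGraph (Fin n)) (hT : T.IsTree)
    (hΔ : ∀ v, (T.neighborSet v).ncard ≤ Δ) (ini ter : T.edgeSet → Fin n)
    (he : ∀ e, s(ini e, ter e) = e.1) :
    ({lab : T.edgeSet → Fin n | ¬ (⟨ini, ter, lab⟩ : LOG (Fin n) T.edgeSet).Sparse 7}.ncard : ℝ) ≤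
    10 ^ 18 * (Δ : ℝ) ^ 6 / n * (((n - 2) ^ (n - 1) : ℕ) : ℝ) := by
  classical
  have hne : ∀ e, ini e ≠ ter e := by
    intro e h
    have h1 := e.2
    rw [← he e, h] at h1
    exact T.loopless.irrefl _ ((SimpleGraph.mem_edgeSet T).1 h1)
  have hcard : Fintype.card T.edgeSet + 1 = n := card_edges T hT
  have hdeg : ∀ v, (univ.filter (fun e : T.edgeSet => ini e = v ∨ ter e = v)).card ≤ Δ := by
    intro v
    refine le_trans ?_ (hΔ v)
    rw [Set.ncard_eq_toFinset_card']
    refine Finset.card_le_card_of_injOn (fun e => if ini e = v then ter e else ini e) ?_ ?_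
    · intro e hev
      simp only [Finset.coe_filter, Finset.mem_univ, true_and, Set.mem_setOf_eq] at hev
      rw [Finset.mem_coe, Set.mem_toFinset, SimpleGraph.mem_neighborSet]
      have h1 := e.2
      rw [← he e, SimpleGraph.mem_edgeSet] at h1
      by_cases h2 : ini e = v
      · simp only [h2, if_true]
        rw [h2] at h1
        exact h1
      · simp only [h2, if_false]
        have h3 := hev.resolve_left h2
        rw [h3] at h1
        exact h1.symm
    · intro e hev e' hev' hee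
      simp only [Finset.coe_filter, Finset.mem_univ, true_and, Set.mem_setOf_eq] at hev hev'
      apply Subtype.ext
      rw [← he e, ← he e']
      simp only at hee
      by_cases h2 : ini e = v <;> by_cases h2' : ini e' = v
      · rw [if_pos h2, if_pos h2'] at hee
        rw [h2, h2', hee]
      · rw [if_pos h2, if_neg h2'] at hee
        rw [h2, hee, hev'.resolve_left h2']
        exact Sym2.eq_swap
      · rw [if_neg h2, if_pos h2'] at hee
        rw [h2', ← hee, hev.resolve_left h2]
        exact Sym2.eq_swap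
      · rw [if_neg h2, if_neg h2'] at hee
        rw [hee, hev.resolve_left h2, hev'.resolve_left h2']
  have hΔ1 : 1 ≤ Δ := by
    have h1 : 0 < Fintype.card T.edgeSet := by omega
    obtain ⟨e⟩ := Fintype.card_pos_iff.1 h1
    refine le_trans ?_ (hdeg (ini e))
    rw [Nat.one_le_iff_ne_zero, ← Nat.pos_iff_ne_zero, Finset.card_pos]
    exact ⟨e, by simp⟩
  have hleaf := RG1.leaf T hT ini ter he
  have hbad := bad_count (by omega) ini ter hcard Δ hΔ1 hne hdeg hleaf
  have hnum := RG4.numerics n Δ hn hΔ1 _ hbad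
  refine hnum.trans ?_
  have hn2 : (((n - 2) ^ (n - 1) : ℕ) : ℝ) = ((n : ℝ) - 2) ^ (n - 1) := by
    rw [Nat.cast_pow, Nat.cast_sub (by omega)]
    norm_num
  rw [hn2]
  have hexp : (7 : ℝ) * 14 ^ 13 * Real.exp 4 ≤ 10 ^ 18 := by
    have h1 : Real.exp 4 = Real.exp 1 ^ 4 := by
      rw [← Real.exp_nat_mul]
      norm_num
    have h2 := Real.exp_one_lt_d9
    have h3 : Real.exp 1 ^ 4 ≤ 2.7182818286 ^ 4 :=
      pow_le_pow_left₀ (Real.exp_pos 1).le h2.le 4
    rw [h1]
    refine (mul_le_mul_of_nonneg_left h3 (by norm_num)).trans ?_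
    norm_num
  have hn' : (3 : ℝ) ≤ n := by exact_mod_cast hn
  have hpos : (0 : ℝ) ≤ (Δ : ℝ) ^ 6 / n * ((n : ℝ) - 2) ^ (n - 1) := by
    have : (0 : ℝ) ≤ (n : ℝ) - 2 := by linarith
    positivity
  calc 7 * 14 ^ 13 * Real.exp 4 * (Δ : ℝ) ^ 6 / n * ((n : ℝ) - 2) ^ (n - 1) =
      (7 * 14 ^ 13 * Real.exp 4) * ((Δ : ℝ) ^ 6 / n * ((n : ℝ) - 2) ^ (n - 1)) := by ring
    _ ≤ 10 ^ 18 * ((Δ : ℝ) ^ 6 / n * ((n : ℝ) - 2) ^ (n - 1)) :=
        mul_le_mul_of_nonneg_right hexp hpos
    _ = _ := by ring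

theorem lt_congr {E : Type} (ini ter ini' ter' lab : E → Fin n)
    (h : ∀ e, s(ini e, ter e) = s(ini' e, ter' e)) (e : E) :
    (⟨ini, ter, lab⟩ : LOG (Fin n) E).lt e = (⟨ini', ter', lab⟩ : LOG (Fin n) E).lt e := by
  have h1 := h e
  rw [Sym2.eq_iff] at h1
  unfold LOG.lt
  rcases h1 with ⟨h1, h2⟩ | ⟨h1, h2⟩
  · simp only [h1, h2]
  · simp only [h1, h2]
    exact Finset.insert_comm _ _ _

/-- sparsity does not depend on the orientation -/
theorem sparse_congr {E : Type} (ini ter ini' ter' lab : E → Fin n) (K : ℕ)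
    (h : ∀ e, s(ini e, ter e) = s(ini' e, ter' e)) (hs : (⟨ini, ter, lab⟩ : LOG (Fin n) E).Sparse K) :
    (⟨ini', ter', lab⟩ : LOG (Fin n) E).Sparse K := by
  intro S hS
  have h1 := hs S hS
  have h2 : (⟨ini, ter, lab⟩ : LOG (Fin n) E).letters S = (⟨ini', ter', lab⟩ : LOG (Fin n) E).letters S := by
    unfold LOG.letters
    exact Finset.biUnion_congr rfl (fun e _ => lt_congr ini ter ini' ter' lab h e)
  rwa [← h2]

/-- every tree has an orientation -/
theorem exists_ori (T : SimpleGraph (Fin n)) : ∃ ini ter : T.edgeSet → Fin n,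
    ∀ e, s(ini e, ter e) = e.1 := by
  have h : ∀ e : T.edgeSet, ∃ p : Fin n × Fin n, s(p.1, p.2) = e.1 := by
    rintro ⟨e, he⟩
    induction e using Sym2.ind with
    | _ a b => exact ⟨(a, b), rfl⟩
  choose p hp using h
  exact ⟨fun e => (p e).1, fun e => (p e).2, hp⟩

end Pool.Agent.TH272.WH
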