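import Pool.Agent.TH272.WH.Count

set_option autoImplicit false

/-! # Almost all labelled trees are diagrammatically reducible for all orientations -/

namespace Pool.Agent.TH272.WH

open Finset Pool.Agent.H891R2.RL
open Pool.Agent.W151.TreeIneq (tau_top)
open Pool.Agent.W151.TreeRec (tau)

variable {n : ℕ}

theorem card_trees_eq (hn : 1 ≤ n) : {T : SimpleGraph (Fin n) | T.IsTree}.ncard = n ^ (n - 2) := by
  rw [card_trees, tau_top n univ (by simp) hn]
  rfl

/-- the number of labelled trees -/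
theorem card_all (hn : 1 ≤ n) : Nat.card (LabelledTree n) = n ^ (n - 2) * (n - 2) ^ (n - 1) := by
  classical
  have : Fintype {T : SimpleGraph (Fin n) // T.IsTree} := Fintype.ofFinite _
  have h := card_LT (n := n) (fun _ => True)
  rw [Nat.card_congr (Equiv.subtypeUnivEquiv (fun x : LabelledTree n => trivial))] at h
  rw [h]
  have h1 : ∀ T : {T : SimpleGraph (Fin n) // T.IsTree}, {lab : T.1.edgeSet → Fin n |
        ∃ _h : ∀ e, lab e ∉ e.1, True}.ncard = (n - 2) ^ (n - 1) := by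
    intro T
    rw [← card_lab T.1 T.2]
    congr 1
    ext lab
    simp
  rw [sum_congr rfl (fun T _ => h1 T), sum_const, card_univ, ← Nat.card_eq_fintype_card, smul_eq_mul]
  congr 1
  rw [← card_trees_eq hn]
  rfl

/-- the bad labelled trees -/
def Bad (x : LabelledTree n) : Prop := ∃ o : Orientation x, ¬ DR o.log.rel

theorem bad_bound (d : ℕ) (hn : 3 ≤ n) (hd : (n : ℝ) ^ 3 ≤ (d.factorial : ℝ)) :
    (Nat.card {x : LabelledTree n // Bad x} : ℝ) ≤
      (10 ^ 18 * (d : ℝ) ^ 6 + 1) / n * (Nat.card (LabelledTree n) : ℝ) := by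
  classical
  have : Fintype {T : SimpleGraph (Fin n) // T.IsTree} := Fintype.ofFinite _
  have hnr : (3 : ℝ) ≤ n := by exact_mod_cast hn
  have hn0 : (0 : ℝ) < n := by linarith
  set M : ℕ := (n - 2) ^ (n - 1) with hM
  rw [card_LT (n := n) Bad]
  push_cast
  -- one tree
  have hbig : ∀ T : {T : SimpleGraph (Fin n) // T.IsTree},
      ({lab : T.1.edgeSet → Fin n | ∃ h : ∀ e, lab e ∉ e.1, Bad ⟨T.1, T.2, lab, h⟩}.ncard : ℝ) ≤ M := by
    intro T
    have hs : {lab : T.1.edgeSet → Fin n | ∃ h : ∀ e, lab e ∉ e.1, Bad ⟨T.1, T.2, lab, h⟩} ⊆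
        {lab : T.1.edgeSet → Fin n | ∀ e, lab e ∉ e.1} := fun lab ⟨h, _⟩ => h
    have := Set.ncard_le_ncard hs (Set.toFinite _)
    rw [card_lab T.1 T.2] at this
    exact_mod_cast this
  have hsmall : ∀ T : {T : SimpleGraph (Fin n) // T.IsTree},
      (¬ ∃ v, d < (T.1.neighborSet v).ncard) →
      ({lab : T.1.edgeSet → Fin n | ∃ h : ∀ e, lab e ∉ e.1, Bad ⟨T.1, T.2, lab, h⟩}.ncard : ℝ) ≤
        10 ^ 18 * (d : ℝ) ^ 6 / n * M := by
    intro T hT
    push Not at hT
    obtain ⟨ini, ter, he⟩ := exists_ori T.1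
    refine le_trans ?_ (nonsparse d hn T.1 T.2 hT ini ter he)
    have hs : {lab : T.1.edgeSet → Fin n | ∃ h : ∀ e, lab e ∉ e.1, Bad ⟨T.1, T.2, lab, h⟩} ⊆
        {lab : T.1.edgeSet → Fin n | ¬ (⟨ini, ter, lab⟩ : LOG (Fin n) T.1.edgeSet).Sparse 7} := by
      rintro lab ⟨h, o, ho⟩ hsp
      apply ho
      have h1 : (⟨o.ini, o.ter, lab⟩ : LOG (Fin n) T.1.edgeSet).Sparse 7 :=
        sparse_congr ini ter o.ini o.ter lab 7 (fun e => (he e).trans (o.ends e).symm) hsp
      refine sparse_DR o.log ?_ h1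
      intro e
      have h2 := o.ends e
      have h3 : lab e ∉ s(o.ini e, o.ter e) := by rw [h2]; exact h e
      rw [Sym2.mem_iff, not_or] at h3
      refine ⟨?_, h3.1, h3.2⟩
      intro h4
      change o.ini e = o.ter e at h4
      have h5 := e.2
      rw [← h2, h4] at h5
      exact T.1.loopless.irrefl _ ((SimpleGraph.mem_edgeSet T.1).1 h5)
    exact_mod_cast Set.ncard_le_ncard hs (Set.toFinite _)
  set Big : Finset {T : SimpleGraph (Fin n) // T.IsTree} :=
    univ.filter (fun T => ∃ v, d < (T.1.neighborSet v).ncard) with hBig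
  have hcb : (Big.card : ℝ) ≤ (n : ℝ) ^ (n - 2) / n := by
    have h1 : Big.card = {T : SimpleGraph (Fin n) | T.IsTree ∧ ∃ v, d < (T.neighborSet v).ncard}.ncard := by
      rw [← Set.ncard_coe_finset, ← Set.ncard_image_of_injective _ Subtype.val_injective]
      congr 1
      ext T
      simp only [hBig, coe_filter, mem_univ, true_and, Set.mem_image, Set.mem_setOf_eq, Subtype.exists,
        exists_and_right, exists_eq_right]
      constructor
      · rintro ⟨a, b⟩
        exact ⟨a, b⟩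
      · rintro ⟨a, b⟩
        exact ⟨a, b⟩
    have h2 := big_trees (V := Fin n) d ⟨0, by omega⟩
    rw [← h1, Fintype.card_fin] at h2
    have h3 : (Big.card : ℝ) * (d.factorial : ℝ) ≤ (n : ℝ) ^ n := by exact_mod_cast h2
    have h4 : (Big.card : ℝ) * (n : ℝ) ^ 3 ≤ (n : ℝ) ^ n :=
      (mul_le_mul_of_nonneg_left hd (by positivity)).trans h3
    have h5 : (n : ℝ) ^ n = (n : ℝ) ^ (n - 2) * (n : ℝ) ^ 2 := by
      rw [← pow_add]
      congr 1
      omega
    rw [le_div_iff₀ hn0]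
    have h6 : 0 < (n : ℝ) ^ 2 := by positivity
    refine le_of_mul_le_mul_right ?_ h6
    calc (Big.card : ℝ) * n * (n : ℝ) ^ 2 = (Big.card : ℝ) * (n : ℝ) ^ 3 := by ring
      _ ≤ (n : ℝ) ^ n := h4
      _ = _ := h5
  have hcT : ((univ : Finset {T : SimpleGraph (Fin n) // T.IsTree}).card : ℝ) = (n : ℝ) ^ (n - 2) := by
    rw [card_univ, ← Nat.card_eq_fintype_card]
    have : Nat.card {T : SimpleGraph (Fin n) // T.IsTree} = n ^ (n - 2) := by
      rw [← card_trees_eq (by omega)]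
      rfl
    rw [this]
    push_cast
    rfl
  have hK : (0 : ℝ) ≤ 10 ^ 18 * (d : ℝ) ^ 6 / n * M := by positivity
  calc ∑ T : {T : SimpleGraph (Fin n) // T.IsTree},
      ({lab : T.1.edgeSet → Fin n | ∃ h : ∀ e, lab e ∉ e.1, Bad ⟨T.1, T.2, lab, h⟩}.ncard : ℝ)
      ≤ ∑ T : {T : SimpleGraph (Fin n) // T.IsTree}, (10 ^ 18 * (d : ℝ) ^ 6 / n * M +
          if T ∈ Big then (M : ℝ) else 0) := by
        refine sum_le_sum (fun T _ => ?_)
        by_cases hT : T ∈ Big
        · rw [if_pos hT]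
          linarith [hbig T]
        · rw [if_neg hT, add_zero]
          refine hsmall T ?_
          simpa [hBig] using hT
    _ = (n : ℝ) ^ (n - 2) * (10 ^ 18 * (d : ℝ) ^ 6 / n * M) + (Big.card : ℝ) * M := by
        rw [sum_add_distrib, sum_const, nsmul_eq_mul, hcT, sum_ite_mem, univ_inter, sum_const,
          nsmul_eq_mul]
    _ ≤ (n : ℝ) ^ (n - 2) * (10 ^ 18 * (d : ℝ) ^ 6 / n * M) + (n : ℝ) ^ (n - 2) / n * M := by
        have := mul_le_mul_of_nonneg_right hcb (Nat.cast_nonneg (α := ℝ) M)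
        linarith
    _ = (10 ^ 18 * (d : ℝ) ^ 6 + 1) / n * (Nat.card (LabelledTree n) : ℝ) := by
        rw [card_all (by omega), ← hM]
        push_cast
        field_simp

/-- the choice of the degree -/
theorem fact_ge (hn : 3 ≤ n) : (n : ℝ) ^ 3 ≤ ((⌈2 * Real.log n⌉₊ + 4).factorial : ℝ) := by
  set d := ⌈2 * Real.log n⌉₊ + 4 with hd
  have hnr : (3 : ℝ) ≤ n := by exact_mod_cast hn
  have hn0 : (0 : ℝ) < n := by linarith
  have h1 := Real.pow_div_factorial_le_exp (8 : ℝ) (by norm_num) d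
  have h2 : Real.exp 2 ≤ 8 := by
    have h3 : Real.exp 2 = Real.exp 1 ^ 2 := by
      rw [← Real.exp_nat_mul]
      norm_num
    have h4 := Real.exp_one_lt_d9
    have h5 : Real.exp 1 ^ 2 ≤ 2.7182818286 ^ 2 := pow_le_pow_left₀ (Real.exp_pos 1).le h4.le 2
    rw [h3]
    refine h5.trans ?_
    norm_num
  have h3 : Real.exp (2 * d) ≤ 8 ^ d := by
    rw [mul_comm, Real.exp_nat_mul]
    exact pow_le_pow_left₀ (Real.exp_pos 2).le h2 d
  have h4 : 2 * Real.log n + 4 ≤ d := by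
    rw [hd]
    push_cast
    linarith [Nat.le_ceil (2 * Real.log n)]
  have h5 : (n : ℝ) ^ 3 ≤ Real.exp (2 * d - 8) := by
    have h6 : (n : ℝ) ^ 3 = Real.exp (3 * Real.log n) := by
      rw [show (3 : ℝ) = ((3 : ℕ) : ℝ) by norm_num, Real.exp_nat_mul, Real.exp_log hn0]
    rw [h6]
    apply Real.exp_le_exp.2
    have : 0 ≤ Real.log n := Real.log_nonneg (by linarith)
    linarith
  have h6 : (0 : ℝ) < d.factorial := by exact_mod_cast Nat.factorial_pos d
  rw [div_le_iff₀ h6] at h1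
  have h7 : Real.exp (2 * d - 8) * Real.exp 8 = Real.exp (2 * d) := by
    rw [← Real.exp_add]
    congr 1
    ring
  have h8 : Real.exp (2 * d - 8) * Real.exp 8 ≤ (d.factorial : ℝ) * Real.exp 8 := by
    rw [h7, mul_comm (d.factorial : ℝ)]
    exact h3.trans h1
  exact h5.trans (le_of_mul_le_mul_right h8 (Real.exp_pos 8))

theorem main (hn : 3 ≤ n) : (Nat.card {x : LabelledTree n // Bad x} : ℝ) ≤
    10 ^ 24 * Real.log n ^ 6 / n * (Nat.card (LabelledTree n) : ℝ) := by
  have hnr : (3 : ℝ) ≤ n := by exact_mod_cast hn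
  have hn0 : (0 : ℝ) < n := by linarith
  have hlog : 1 ≤ Real.log n := by
    rw [Real.le_log_iff_exp_le hn0]
    linarith [Real.exp_one_lt_d9]
  refine (bad_bound _ hn (fact_ge hn)).trans ?_
  refine mul_le_mul_of_nonneg_right ?_ (Nat.cast_nonneg _)
  refine div_le_div_of_nonneg_right ?_ hn0.le
  have h1 : ((⌈2 * Real.log n⌉₊ + 4 : ℕ) : ℝ) ≤ 7 * Real.log n := by
    push_cast
    have := Nat.ceil_lt_add_one (a := 2 * Real.log n) (by linarith)
    linarith
  have h2 : ((⌈2 * Real.log n⌉₊ + 4 : ℕ) : ℝ) ^ 6 ≤ (7 * Real.log n) ^ 6 :=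
    pow_le_pow_left₀ (by positivity) h1 6
  have h3 : 1 ≤ Real.log n ^ 6 := one_le_pow₀ hlog
  rw [mul_pow] at h2
  nlinarith [h2, h3]

end Pool.Agent.TH272.WH
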