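import Pool.Agent.TH272.WH.Count

set_option autoImplicit false

/-! # Killing one generator of a labelled oriented tree gives the trivial group -/

namespace Pool.Agent.TH272.WH

open Pool.Agent.H891R2.RL

variable {n : ℕ}

/-- the relators as elements of the free group -/
def word {V : Type} (r : Fin 4 → V × Bool) : FreeGroup V := FreeGroup.mk (List.ofFn r)

theorem word_rel {V E : Type} (L : LOG V E) (e : E) : word (L.rel e) =
    FreeGroup.of (L.ini e) * FreeGroup.of (L.lab e) * (FreeGroup.of (L.ter e))⁻¹ *
      (FreeGroup.of (L.lab e))⁻¹ := by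
  unfold word LOG.rel
  simp [List.ofFn_succ, FreeGroup.of, FreeGroup.inv_mk, FreeGroup.invRev]

theorem triv (x : LabelledTree n) (o : Orientation x) (v : Fin n) :
    ∀ g : PresentedGroup (Set.range (fun e => word (o.log.rel e)) ∪ {FreeGroup.of v}), g = 1 := by
  set R : Set (FreeGroup (Fin n)) := Set.range (fun e => word (o.log.rel e)) ∪ {FreeGroup.of v} with hR
  have h0 : (PresentedGroup.of v : PresentedGroup R) = 1 :=
    PresentedGroup.one_of_mem (Or.inr rfl)
  have hrel : ∀ e, (PresentedGroup.of (o.log.ini e) : PresentedGroup R) * PresentedGroup.of (o.log.lab e) *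
      (PresentedGroup.of (o.log.ter e))⁻¹ * (PresentedGroup.of (o.log.lab e))⁻¹ = 1 := by
    intro e
    have h1 : PresentedGroup.mk R (word (o.log.rel e)) = 1 :=
      PresentedGroup.one_of_mem (Or.inl ⟨e, rfl⟩)
    rw [word_rel, map_mul, map_mul, map_mul, map_inv, map_inv] at h1
    exact h1
  have hadj : ∀ a b, x.tree.Adj a b → (PresentedGroup.of a : PresentedGroup R) = 1 →
      (PresentedGroup.of b : PresentedGroup R) = 1 := by
    intro a b hab ha
    have he := o.ends ⟨s(a, b), hab⟩
    have hr := hrel ⟨s(a, b), hab⟩
    set e : x.tree.edgeSet := ⟨s(a, b), hab⟩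
    rw [Sym2.eq_iff] at he
    rcases he with ⟨h1, h2⟩ | ⟨h1, h2⟩
    · change o.log.ini e = a at h1
      change o.log.ter e = b at h2
      rw [h1, h2, ha] at hr
      simpa using hr
    · change o.log.ini e = b at h1
      change o.log.ter e = a at h2
      rw [h1, h2, ha] at hr
      simpa using hr
  have hreach : ∀ a b, x.tree.Reachable a b → (PresentedGroup.of a : PresentedGroup R) = 1 →
      (PresentedGroup.of b : PresentedGroup R) = 1 := by
    intro a b hab
    obtain ⟨w⟩ := hab
    induction w with
    | nil => exact id
    | cons h _ ih => exact fun ha => ih (hadj _ _ h ha)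
  have hall : ∀ a, (PresentedGroup.of a : PresentedGroup R) = 1 := fun a =>
    hreach v a (x.isTree.connected.preconnected v a) h0
  have hid : MonoidHom.id (PresentedGroup R) = 1 := by
    apply PresentedGroup.ext
    intro a
    simp [hall a]
  exact fun g => DFunLike.congr_fun hid g

end Pool.Agent.TH272.WH
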