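import Pool.Agent.TH272.WH.Main
import Pool.Agent.TH272.WH.Triv

set_option autoImplicit false

/-! # Subcomplexes -/

namespace Pool.Agent.TH272.WH

open Pool.Agent.H891R2.RL

/-- a spherical diagram over a subcomplex is a spherical diagram over the complex -/
def mapDiagram {X R R' : Type} (r : R → Fin 4 → X × Bool) (f : R' → R)
    (S : SphericalDiagram (fun e => r (f e))) : SphericalDiagram r :=
  { D := S.D, finD := S.finD, nonemptyD := S.nonemptyD, nxt := S.nxt, opp := S.opp,
    opp_ne := S.opp_ne, opp_opp := S.opp_opp, connected := S.connected, euler := S.euler,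
    cell := fun d => f (S.cell d), pos := S.pos, sgn := S.sgn, face := S.face,
    cell_nxt := fun d => congrArg f (S.cell_nxt d), sgn_nxt := S.sgn_nxt, pos_nxt := S.pos_nxt,
    letter_opp := fun d => S.letter_opp d }

theorem dr_sub {X R R' : Type} (r : R → Fin 4 → X × Bool) (f : R' → R)
    (hf : Function.Injective f) (h : DR r) : DR (fun e => r (f e)) := by
  intro S hS
  refine h (mapDiagram r f S) ?_
  rintro d ⟨h1, h2, h3⟩
  exact hS d ⟨hf h1, h2, h3⟩

variable {n : ℕ}

theorem bad_sub (x : LabelledTree n) :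
    (∃ (o : Orientation x) (S : Set x.tree.edgeSet), ¬ DR (fun e : S => o.log.rel e)) ↔ Bad x := by
  constructor
  · rintro ⟨o, S, hS⟩
    refine ⟨o, fun h => ?_⟩
    exact hS (dr_sub o.log.rel (fun e : S => (e : x.tree.edgeSet)) Subtype.val_injective h)
  · rintro ⟨o, h⟩
    refine ⟨o, Set.univ, fun h2 => h ?_⟩
    exact dr_sub (fun e : (Set.univ : Set x.tree.edgeSet) => o.log.rel e)
      (fun e => ⟨e, trivial⟩) (fun a b hab => Subtype.mk.inj hab) h2

theorem main_sub (hn : 3 ≤ n) :
    (Nat.card {x : LabelledTree n // ∃ (o : Orientation x) (S : Set x.tree.edgeSet),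
      ¬ DR (fun e : S => o.log.rel e)} : ℝ) ≤
    10 ^ 24 * Real.log n ^ 6 / n * (Nat.card (LabelledTree n) : ℝ) := by
  have : Nat.card {x : LabelledTree n // ∃ (o : Orientation x) (S : Set x.tree.edgeSet),
      ¬ DR (fun e : S => o.log.rel e)} = Nat.card {x : LabelledTree n // Bad x} :=
    Nat.card_congr (Equiv.subtypeEquivRight bad_sub)
  rw [this]
  exact main hn

end Pool.Agent.TH272.WH
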